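import Mathlib

/-! Definitions for the page MP_6420b1_an: Toeplitz sequences, rigid and partially rigid measures. -/

set_option autoImplicit false

open Set Topology MeasureTheory Filter

namespace Pool.Agent.N822.TZ

/-- The left shift on the two-sided sequences. -/
def shift {A : Type} (x : ℤ → A) : ℤ → A := fun n => x (n + 1)

/-- Toeplitz sequences: not periodic, and every coordinate lies in an arithmetic progression of
coordinates with the same symbol. -/
def IsToeplitz {A : Type} (x : ℤ → A) : Prop :=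
  (¬ ∃ p : ℤ, 1 ≤ p ∧ ∀ n : ℤ, x (n + p) = x n) ∧
    ∀ n : ℤ, ∃ p : ℤ, 1 ≤ p ∧ ∀ k : ℤ, x (n + k * p) = x n

/-- The orbit closure of a two-sided sequence, in the product topology. -/
def orbitClosure {A : Type} [TopologicalSpace A] (x : ℤ → A) : Set (ℤ → A) :=
  closure {y | ∃ k : ℤ, y = fun n => x (n + k)}

/-- `μ (σ ^ n_k B ∩ B)` tends to `μ B` for every Borel set `B`, for some sequence `n_k → ∞`. -/
def Rigid {A : Type} [MeasurableSpace A] (μ : Measure (ℤ → A)) : Prop :=
  ∃ n : ℕ → ℕ, Tendsto n atTop atTop ∧ ∀ B : Set (ℤ → A), MeasurableSet B →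
    Tendsto (fun k => μ ((shift^[n k] '' B) ∩ B)) atTop (𝓝 (μ B))

/-- The lower limit of `μ (σ ^ n_k B ∩ B)` is at least `δ μ B` for every Borel set `B`, for some
`δ > 0` and some sequence `n_k → ∞`. -/
def PartiallyRigid {A : Type} [MeasurableSpace A] (μ : Measure (ℤ → A)) : Prop :=
  ∃ δ : ℝ, 0 < δ ∧ ∃ n : ℕ → ℕ, Tendsto n atTop atTop ∧ ∀ B : Set (ℤ → A), MeasurableSet B →
    ENNReal.ofReal δ * μ B ≤ liminf (fun k => μ ((shift^[n k] '' B) ∩ B)) atTop

end Pool.Agent.N822.TZ
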