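import Pool.Agent.N822.TZ.Odo
import Pool.Agent.N822.TZ.Def

/-! The factor map from the two-point extension to the subshift. -/

set_option autoImplicit false

open Set Topology MeasureTheory Filter

open scoped ENNReal

noncomputable section

namespace Pool.Agent.N822.TZ

open Pool.Agent.N822.TZ.Symb

lemma T_apply (ω : Om) : T ω = (ω.1 + 1, xor ω.2 (phi ω.1)) := rfl

lemma fr_T (ω : Om) (k : ℤ) : fr (T ω) k = fr ω (k + 1) := by
  unfold fr
  rw [zpow_add_one]
  rfl

lemma fr_zero (ω : Om) : fr ω 0 = ω.2 := by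
  unfold fr
  rw [zpow_zero]
  rfl

lemma yc_mem (ω : Om) : yc ω ∈ Kp := xs_mem (comp_ph _) _

lemma yc_T (ω : Om) : yc (T ω) = shift (yc ω) := by
  funext k
  rw [shift, yc, yc]
  have h1 : (T ω).1 = ω.1 + 1 := rfl
  rw [h1]
  by_cases h : ∃ n, rr (ph ω.1) (n + 1) (k + 1) < ee n
  · obtain ⟨n, hn⟩ := h
    rw [xs_header (comp_ph _) _ hn, xs_header (comp_ph _) _ (n := n) (by rw [rr_shift]; exact hn),
      rr_shift]
  · push Not at h
    rw [xs_free _ h, xs_free]
    · exact fr_T ω k
    · intro n
      rw [rr_shift]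
      exact h n

lemma yc_T_pow (n : ℕ) (ω : Om) : yc ((T ^ n) ω) = shift^[n] (yc ω) := by
  induction n with
  | zero => rfl
  | succ n ih =>
    rw [pow_succ', Function.iterate_succ_apply', ← ih]
    exact yc_T _

/-! ### Measurability -/

lemma measurable_fr (hm : ∀ n : ℤ, Measurable ((T ^ n : Equiv.Perm Om) : Om → Om)) (k : ℤ) :
    Measurable (fun ω => fr ω k) := by
  unfold fr
  exact measurable_snd.comp (hm k)

lemma measurable_yc (hm : ∀ n : ℤ, Measurable ((T ^ n : Equiv.Perm Om) : Om → Om)) :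
    Measurable yc := by
  rw [measurable_pi_iff]
  intro k
  apply measurable_to_bool
  have hH : MeasurableSet {ω : Om | ∃ n, rr (ph ω.1) (n + 1) k < ee n ∧
      HH n (rr (ph ω.1) (n + 1) k) = true} := by
    have : {ω : Om | ∃ n, rr (ph ω.1) (n + 1) k < ee n ∧ HH n (rr (ph ω.1) (n + 1) k) = true} =
        ⋃ n, (fun ω : Om => rr (ph ω.1) (n + 1) k) ⁻¹' {j | j < ee n ∧ HH n j = true} := by
      ext ω
      simp
    rw [this]
    apply MeasurableSet.iUnion
    intro n
    have h1 : Measurable (fun ω : Om => rr (ph ω.1) (n + 1) k) :=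
      (measurable_rr (n + 1) k).comp measurable_fst
    exact h1 MeasurableSet.of_discrete
  have hF : MeasurableSet {ω : Om | (∀ n, ee n ≤ rr (ph ω.1) (n + 1) k) ∧ fr ω k = true} := by
    have : {ω : Om | (∀ n, ee n ≤ rr (ph ω.1) (n + 1) k) ∧ fr ω k = true} =
        (⋂ n, {ω : Om | ee n ≤ rr (ph ω.1) (n + 1) k}) ∩ {ω | fr ω k = true} := by
      ext ω
      simp
    rw [this]
    refine MeasurableSet.inter (MeasurableSet.iInter fun n => measurableSet_le measurable_const
      ((measurable_rr _ _).comp measurable_fst)) ?_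
    exact (measurable_fr hm k) (MeasurableSet.singleton true)
  have : (fun ω => yc ω k) ⁻¹' {true} = {ω : Om | ∃ n, rr (ph ω.1) (n + 1) k < ee n ∧
      HH n (rr (ph ω.1) (n + 1) k) = true} ∪
      {ω : Om | (∀ n, ee n ≤ rr (ph ω.1) (n + 1) k) ∧ fr ω k = true} := by
    ext ω
    simp only [mem_preimage, mem_singleton_iff, mem_union, mem_ofPred_eq]
    constructor
    · intro h
      by_cases h' : ∃ n, rr (ph ω.1) (n + 1) k < ee n
      · obtain ⟨n, hn⟩ := h'
        left
        rw [yc, xs_header (comp_ph _) _ hn] at h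
        exact ⟨n, hn, h⟩
      · push Not at h'
        right
        rw [yc, xs_free _ h'] at h
        exact ⟨h', h⟩
    · rintro (⟨n, hn, hn'⟩ | ⟨h1, h2⟩)
      · rw [yc, xs_header (comp_ph _) _ hn]
        exact hn'
      · rw [yc, xs_free _ h1]
        exact h2
  rw [this]
  exact hH.union hF

/-! ### The measure `rho` -/

lemma measurable_pt (b : Bool) : Measurable (fun z : ℤ_[2] => ((z, b) : Om)) :=
  measurable_id.prodMk measurable_const

lemma rho_apply {E : Set Om} (hE : MeasurableSet E) :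
    rho E = 2⁻¹ * (la {z | (z, false) ∈ E} + la {z | (z, true) ∈ E}) := by
  rw [rho, Measure.smul_apply, Measure.add_apply, Measure.map_apply (measurable_pt false) hE,
    Measure.map_apply (measurable_pt true) hE, smul_eq_mul]
  rfl

instance : IsProbabilityMeasure rho := ⟨by
  rw [rho_apply MeasurableSet.univ]
  simp only [mem_univ, ofPred_true, measure_univ]
  rw [one_add_one_eq_two]
  exact ENNReal.inv_mul_cancel (by norm_num) (by norm_num)⟩

end Pool.Agent.N822.TZ
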