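import Pool.Agent.N822.TZ.Fac

/-! Assembly. -/

set_option autoImplicit false

open Set Topology MeasureTheory Filter

open scoped ENNReal

noncomputable section

namespace Pool.Agent.N822.TZ

open Pool.Agent.N822.TZ.Symb

lemma T_pow_false (n : ℕ) (z : ℤ_[2]) (b : Bool) : (T ^ n) (z, b) =
    (z + n, xor b ((T ^ n) (z, false)).2) ∧ ((T ^ n) (z, false)).1 = z + n := by
  induction n generalizing z b with
  | zero => simp
  | succ n ih =>
    have e : ∀ ω : Om, (T ^ (n + 1)) ω = T ((T ^ n) ω) := by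
      intro ω
      rw [pow_succ']
      rfl
    rw [e, e, (ih z b).1, T_apply, T_apply, (ih z b).2]
    refine ⟨?_, by push_cast; ring⟩
    ext1
    · simp only
      push_cast
      ring
    · simp only [Bool.xor_assoc]

/-- the measure on the sequences -/
def mu : Measure (ℤ → Bool) := rho.map yc

/-- the cylinder of the sequences with letter `true` at `0` -/
def B0 : Set (ℤ → Bool) := {y | y 0 = true}

lemma measurableSet_B0 : MeasurableSet B0 := by
  have h : Measurable (fun y : ℤ → Bool => y 0) := measurable_pi_apply 0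
  exact h (MeasurableSet.singleton true)

section

variable (hm : ∀ n : ℤ, Measurable ((T ^ n : Equiv.Perm Om) : Om → Om))

include hm

lemma measurable_T_pow (n : ℕ) : Measurable ((T ^ n : Equiv.Perm Om) : Om → Om) := by
  have := hm n
  simpa using this

/-- non-rigidity -/
lemma nonrigid_rho (hLOW : S_LOW) (hP : MeasurePreserving (T : Om → Om) rho rho) (n : ℕ)
    (hn : 0 < n) :
    (64 : ℝ≥0∞)⁻¹ ≤ rho ((yc ⁻¹' B0) \ (((T ^ n : Equiv.Perm Om) : Om → Om) ⁻¹' (yc ⁻¹' B0))) := by
  set E : Set Om := yc ⁻¹' B0 with hEdef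
  set F : Set Om := ((T ^ n : Equiv.Perm Om) : Om → Om) ⁻¹' E with hFdef
  have hE : MeasurableSet E := measurable_yc hm measurableSet_B0
  have hF : MeasurableSet F := measurable_T_pow hm n hE
  have hPn : MeasurePreserving ((T ^ n : Equiv.Perm Om) : Om → Om) rho rho := by
    have h1 := hP.iterate n
    have h2 : ((T ^ n : Equiv.Perm Om) : Om → Om) = (T : Om → Om)^[n] := by
      rw [Equiv.Perm.coe_pow]
    rw [h2]
    exact h1
  have hEF : rho F = rho E := hPn.measure_preimage hE.nullMeasurableSet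
  have hdiff : rho (F \ E) = rho (E \ F) := by
    have h1 := measure_sdiff_add_inter (μ := rho) E hF
    have h2 := measure_sdiff_add_inter (μ := rho) F hE
    rw [inter_comm F E, hEF, ← h1] at h2
    exact (ENNReal.add_left_inj (measure_ne_top _ _)).mp h2
  -- the set of free phases with nontrivial cocycle
  set A : Set ℤ_[2] := {z | ((T ^ n) (z, false)).2 = true} ∩ Free with hA
  have hA1 : (16 : ℝ≥0∞)⁻¹ ≤ la A := by
    have h1 := hLOW n hn
    have h2 := measure_Free_compl
    have h3 : {z | ((T ^ n) (z, false)).2 = true} ⊆ A ∪ Freeᶜ := by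
      intro z hz
      by_cases h : z ∈ Free
      · exact Or.inl ⟨hz, h⟩
      · exact Or.inr h
    have h4 : (8 : ℝ≥0∞)⁻¹ ≤ la A + (16 : ℝ≥0∞)⁻¹ :=
      (h1.trans (measure_mono h3)).trans ((measure_union_le _ _).trans (by gcongr))
    have h5 : (8 : ℝ≥0∞)⁻¹ = (16 : ℝ≥0∞)⁻¹ + (16 : ℝ≥0∞)⁻¹ := by
      have e : (8 : ℝ≥0∞)⁻¹ = 2 * (16 : ℝ≥0∞)⁻¹ := by
        have : (16 : ℝ≥0∞) = 2 * 8 := by norm_num
        rw [this, ENNReal.mul_inv (by left; norm_num) (by left; norm_num), ← mul_assoc,
          ENNReal.mul_inv_cancel (by norm_num) (by norm_num), one_mul]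
      rw [e, two_mul]
    rw [h5] at h4
    exact (ENNReal.add_le_add_iff_right (by finiteness)).mp h4
  have hsub : A ⊆ {z | (z, true) ∈ E \ F} ∪ {z | (z, false) ∈ F \ E} := by
    rintro z ⟨hz1, hz2⟩
    have hz1' : ((T ^ n) (z, false)).2 = true := hz1
    have hyb : ∀ b : Bool, yc (z, b) 0 = b := by
      intro b
      rw [yc, xs_free _ hz2]
      exact fr_zero _
    have hT : (z, true) ∈ E := hyb true
    have hFa : (z, false) ∉ E := by
      intro h
      have : yc (z, false) 0 = true := h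
      rw [hyb false] at this
      exact Bool.false_ne_true this
    have hTn : ∀ b : Bool, (T ^ n) (z, b) = (z + n, !b) := by
      intro b
      rw [(T_pow_false n z b).1, hz1', Bool.xor_true]
    by_cases hfree : z + n ∈ Free
    · left
      refine ⟨hT, ?_⟩
      intro h
      have h1 : yc ((T ^ n) (z, true)) 0 = true := h
      rw [hTn] at h1
      have h2 : yc (z + n, !true) 0 = !true := by
        rw [yc, xs_free _ hfree]
        exact fr_zero _
      rw [h2] at h1
      exact absurd h1 (by decide)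
    · have hconst : ∀ b b' : Bool, yc (z + n, b) 0 = yc (z + n, b') 0 := by
        intro b b'
        have hfree' : ¬ ∀ m, ee m ≤ rr (ph (z + n)) (m + 1) 0 := hfree
        push Not at hfree'
        obtain ⟨m, hm'⟩ := hfree'
        rw [yc, yc, xs_header (comp_ph _) _ hm', xs_header (comp_ph _) _ hm']
      by_cases h : (z, true) ∈ F
      · right
        refine ⟨?_, hFa⟩
        have h1 : yc ((T ^ n) (z, true)) 0 = true := h
        change yc ((T ^ n) (z, false)) 0 = true
        rw [hTn] at h1 ⊢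
        rw [← h1]
        exact hconst _ _
      · left
        exact ⟨hT, h⟩
  have h6 : la {z | (z, true) ∈ E \ F} ≤ 2 * rho (E \ F) := by
    rw [rho_apply (hE.diff hF), ← mul_assoc, ENNReal.mul_inv_cancel (by norm_num) (by norm_num),
      one_mul]
    exact le_add_self
  have h7 : la {z | (z, false) ∈ F \ E} ≤ 2 * rho (E \ F) := by
    rw [← hdiff, rho_apply (hF.diff hE), ← mul_assoc,
      ENNReal.mul_inv_cancel (by norm_num) (by norm_num), one_mul]
    exact le_self_add
  have h8 : (16 : ℝ≥0∞)⁻¹ ≤ 4 * rho (E \ F) := by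
    calc (16 : ℝ≥0∞)⁻¹ ≤ la A := hA1
      _ ≤ _ := measure_mono hsub
      _ ≤ _ := measure_union_le _ _
      _ ≤ 2 * rho (E \ F) + 2 * rho (E \ F) := add_le_add h6 h7
      _ = 4 * rho (E \ F) := by ring
  have h9 : (64 : ℝ≥0∞)⁻¹ = 4⁻¹ * 16⁻¹ := by
    rw [← ENNReal.mul_inv (by left; norm_num) (by left; norm_num)]
    norm_num
  rw [h9]
  calc (4 : ℝ≥0∞)⁻¹ * 16⁻¹ ≤ 4⁻¹ * (4 * rho (E \ F)) := by gcongr
    _ = rho (E \ F) := by
      rw [← mul_assoc, ENNReal.inv_mul_cancel (by norm_num) (by norm_num), one_mul]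

omit hm in
lemma shift_bij : Function.Bijective (shift : (ℤ → Bool) → (ℤ → Bool)) := by
  constructor
  · intro x y h
    funext n
    have := congrFun h (n - 1)
    simpa [shift] using this
  · intro y
    exact ⟨fun n => y (n - 1), by funext n; simp [shift]⟩

omit hm in
lemma measurable_shift : Measurable (shift : (ℤ → Bool) → (ℤ → Bool)) := by
  rw [measurable_pi_iff]
  intro k
  exact measurable_pi_apply _

lemma mu_inter (hP : MeasurePreserving (T : Om → Om) rho rho) (n : ℕ) {B : Set (ℤ → Bool)}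
    (hB : MeasurableSet B) :
    mu ((shift^[n] '' B) ∩ B) =
      rho (((T ^ n : Equiv.Perm Om) : Om → Om) ⁻¹' (yc ⁻¹' B) ∩ (yc ⁻¹' B)) := by
  have hyc := measurable_yc hm
  have hbij : Function.Bijective (shift^[n] : (ℤ → Bool) → (ℤ → Bool)) := shift_bij.iterate n
  -- the inverse of the shift is measurable
  have himg : MeasurableSet (shift^[n] '' B) := by
    have hinv : Measurable (fun y : ℤ → Bool => fun m : ℤ => y (m - n)) := by
      rw [measurable_pi_iff]
      intro k
      exact measurable_pi_apply _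
    have hit : ∀ (n : ℕ) (y : ℤ → Bool) (m : ℤ), shift^[n] y m = y (m + n) := by
      intro n
      induction n with
      | zero => intro y m; simp
      | succ n ih =>
        intro y m
        rw [Function.iterate_succ_apply, ih, shift]
        congr 1
        push_cast
        ring
    have : shift^[n] '' B = (fun y : ℤ → Bool => fun m : ℤ => y (m - n)) ⁻¹' B := by
      ext y
      simp only [mem_image, mem_preimage]
      constructor
      · rintro ⟨x, hx, rfl⟩
        have : (fun m : ℤ => shift^[n] x (m - n)) = x := by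
          funext m
          rw [hit]
          simp
        rw [this]
        exact hx
      · intro h
        refine ⟨_, h, ?_⟩
        funext m
        rw [hit]
        simp
    rw [this]
    exact hinv hB
  have hPn : MeasurePreserving ((T ^ n : Equiv.Perm Om) : Om → Om) rho rho := by
    have h1 := hP.iterate n
    have h2 : ((T ^ n : Equiv.Perm Om) : Om → Om) = (T : Om → Om)^[n] := by
      rw [Equiv.Perm.coe_pow]
    rw [h2]
    exact h1
  rw [mu, Measure.map_apply hyc (himg.inter hB)]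
  have h3 := hPn.measure_preimage (s := yc ⁻¹' ((shift^[n] '' B) ∩ B))
    (hyc (himg.inter hB)).nullMeasurableSet
  rw [← h3]
  congr 1
  ext ω
  simp only [mem_preimage, mem_inter_iff]
  rw [yc_T_pow]
  constructor
  · rintro ⟨h4, h5⟩
    refine ⟨h5, ?_⟩
    obtain ⟨x, hx, hx'⟩ := h4
    rw [← hbij.1 hx']
    exact hx
  · rintro ⟨h4, h5⟩
    exact ⟨⟨_, h5, rfl⟩, h4⟩

end

/-- The final statement from the pieces. -/
theorem final (hm : ∀ n : ℤ, Measurable ((T ^ n : Equiv.Perm Om) : Om → Om))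
    (hTOEP : S_TOEP) (hLOW : S_LOW) (hERG : S_ERG) (hPR : S_PR) :
    ∃ x : ℤ → Bool, IsToeplitz x ∧ ∃ μ : Measure (ℤ → Bool), IsProbabilityMeasure μ ∧
      μ (orbitClosure x) = 1 ∧ Ergodic shift μ ∧ PartiallyRigid μ ∧ ¬ Rigid μ := by
  have hP : MeasurePreserving (T : Om → Om) rho rho := hERG.toMeasurePreserving
  have hyc := measurable_yc hm
  obtain ⟨x, hxK, hxper, hxcl⟩ := hTOEP
  have hocl : orbitClosure x = Kp := hxcl
  have hprob : IsProbabilityMeasure mu := Measure.isProbabilityMeasure_map hyc.aemeasurable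
  have hmono : ∀ n : ℕ, 0 < n → rho (((T ^ n : Equiv.Perm Om) : Om → Om) ⁻¹' (yc ⁻¹' B0) ∩
      (yc ⁻¹' B0)) + (64 : ℝ≥0∞)⁻¹ ≤ rho (yc ⁻¹' B0) := by
    intro n hn
    have h1 := nonrigid_rho hm hLOW hP n hn
    have hE : MeasurableSet (yc ⁻¹' B0) := hyc measurableSet_B0
    have hF : MeasurableSet (((T ^ n : Equiv.Perm Om) : Om → Om) ⁻¹' (yc ⁻¹' B0)) :=
      measurable_T_pow hm n hE
    have h2 := measure_inter_add_sdiff (μ := rho) (yc ⁻¹' B0) hF
    rw [inter_comm] at h2
    calc _ ≤ rho (((T ^ n : Equiv.Perm Om) : Om → Om) ⁻¹' (yc ⁻¹' B0) ∩ (yc ⁻¹' B0)) +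
        rho ((yc ⁻¹' B0) \ (((T ^ n : Equiv.Perm Om) : Om → Om) ⁻¹' (yc ⁻¹' B0))) := by gcongr
      _ = _ := h2
  refine ⟨x, ⟨?_, hxper⟩, mu, hprob, ?_, ?_, ?_, ?_⟩
  · -- not periodic
    rintro ⟨p, hp, hper⟩
    obtain ⟨n, rfl⟩ : ∃ n : ℕ, p = n := ⟨p.toNat, by omega⟩
    have hn : 0 < n := by omega
    have hall : ∀ y ∈ Kp, shift^[n] y = y := by
      intro y hy
      rw [← hocl] at hy
      have hit : ∀ (n : ℕ) (y : ℤ → Bool) (m : ℤ), shift^[n] y m = y (m + n) := by
        intro n
        induction n with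
        | zero => intro y m; simp
        | succ n ih =>
          intro y m
          rw [Function.iterate_succ_apply, ih, shift]
          congr 1
          push_cast
          ring
      have hclosed : IsClosed {y : ℤ → Bool | ∀ m : ℤ, y (m + n) = y m} := by
        have : {y : ℤ → Bool | ∀ m : ℤ, y (m + n) = y m} = ⋂ m : ℤ, {y | y (m + n) = y m} := by
          ext y
          simp
        rw [this]
        exact isClosed_iInter fun m => isClosed_eq (continuous_apply _) (continuous_apply _)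
      have hsub : {y : ℤ → Bool | ∃ k : ℤ, y = fun n => x (n + k)} ⊆
          {y : ℤ → Bool | ∀ m : ℤ, y (m + n) = y m} := by
        rintro _ ⟨k, rfl⟩ m
        have := hper (m + k)
        simp only
        rw [← this]
        congr 1
        ring
      have h1 := closure_minimal hsub hclosed hy
      funext m
      rw [hit]
      exact h1 m
    have h2 := hmono n hn
    have h3 : ((T ^ n : Equiv.Perm Om) : Om → Om) ⁻¹' (yc ⁻¹' B0) = yc ⁻¹' B0 := by
      ext ω
      simp only [mem_preimage]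
      rw [yc_T_pow, hall _ (yc_mem ω)]
    rw [h3, inter_self] at h2
    have h4 : rho (yc ⁻¹' B0) ≠ ⊤ := measure_ne_top _ _
    have h5 : rho (yc ⁻¹' B0) < rho (yc ⁻¹' B0) + (64 : ℝ≥0∞)⁻¹ :=
      ENNReal.lt_add_right h4 (by simp)
    exact absurd h2 (not_le.mpr h5)
  · rw [hocl, mu, Measure.map_apply hyc isClosed_Kp.measurableSet]
    have : yc ⁻¹' Kp = univ := by
      ext ω
      simp [yc_mem ω]
    rw [this, measure_univ]
  · have hmp : MeasurePreserving yc rho mu := ⟨hyc, rfl⟩
    exact hmp.ergodic_of_ergodic_semiconj hERG measurable_shift (fun ω => yc_T ω)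
  · refine ⟨1 / 4, by norm_num, fun k => 2 ^ k, ?_, ?_⟩
    · exact tendsto_pow_atTop_atTop_of_one_lt (by norm_num)
    · intro B hB
      have h1 := hPR (yc ⁻¹' B) (hyc hB)
      have h2 : ENNReal.ofReal (1 / 4) = (4 : ℝ≥0∞)⁻¹ := by
        rw [one_div, ENNReal.ofReal_inv_of_pos (by norm_num)]
        norm_num
      rw [h2, mu, Measure.map_apply hyc hB]
      refine h1.trans (le_of_eq ?_)
      congr 1
      funext k
      exact (mu_inter hm hP (2 ^ k) hB).symm
  · rintro ⟨n, hn, hlim⟩
    have h1 := hlim B0 measurableSet_B0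
    have h2 : mu B0 = rho (yc ⁻¹' B0) := Measure.map_apply hyc measurableSet_B0
    have h3 : ∀ᶠ k in atTop, mu ((shift^[n k] '' B0) ∩ B0) + (64 : ℝ≥0∞)⁻¹ ≤ rho (yc ⁻¹' B0) := by
      filter_upwards [hn.eventually_gt_atTop 0] with k hk
      rw [mu_inter hm hP (n k) measurableSet_B0]
      exact hmono (n k) hk
    have h4 : Tendsto (fun k => mu ((shift^[n k] '' B0) ∩ B0) + (64 : ℝ≥0∞)⁻¹) atTop
        (𝓝 (mu B0 + (64 : ℝ≥0∞)⁻¹)) := h1.add tendsto_const_nhds
    have h5 := le_of_tendsto h4 h3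
    rw [h2] at h5
    have h6 : rho (yc ⁻¹' B0) ≠ ⊤ := measure_ne_top _ _
    have h7 : rho (yc ⁻¹' B0) < rho (yc ⁻¹' B0) + (64 : ℝ≥0∞)⁻¹ :=
      ENNReal.lt_add_right h6 (by simp)
    exact absurd h5 (not_le.mpr h7)

end Pool.Agent.N822.TZ
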