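import Pool.Agent.N822.TZ.Stm

/-! The phases of the coded sequences (after Helper289/Odo.lean). -/

set_option autoImplicit false

open Set Topology MeasureTheory Filter

open scoped ENNReal

noncomputable section

namespace Pool.Agent.N822.TZ

open Pool.Agent.N822.TZ.Symb

lemma comp_ph (z : ℤ_[2]) : Comp (ph z) := by
  intro n
  have h1 := z.dvd_appr_sub_appr (kk n) (kk (n + 1)) (kk_lt n).le
  have h2 := z.appr_mono (kk_lt n).le
  obtain ⟨t, ht⟩ := h1
  refine ⟨t, ?_⟩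
  rw [ph, ph]
  have h3 : z.appr (kk (n + 1)) = z.appr (kk n) + 2 ^ kk n * t := by omega
  rw [h3]
  push_cast
  ring

lemma dvd_ph (z : ℤ_[2]) (n : ℕ) : (2 : ℤ_[2]) ^ kk n ∣ z - (ph z n : ℤ) := by
  have := PadicInt.appr_spec (kk n) z
  rw [Ideal.mem_span_singleton] at this
  rw [ph]
  exact_mod_cast this

lemma rr_iff (z : ℤ_[2]) (n : ℕ) (k : ℤ) (j : ℕ) (hj : j < 2 ^ kk n) :
    rr (ph z) n k = j ↔ (2 : ℤ_[2]) ^ kk n ∣ z + ((k - j : ℤ) : ℤ_[2]) := by
  have h1 := dvd_ph z n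
  have h2 : (2 : ℤ_[2]) ^ kk n ∣ z + ((k - j : ℤ) : ℤ_[2]) ↔ (2 ^ kk n : ℤ) ∣ (ph z n + k) - j := by
    have h3 := PadicInt.pow_p_dvd_int_iff (p := 2) (kk n) (ph z n + k - j)
    rw [Nat.cast_ofNat, Nat.cast_ofNat] at h3
    rw [← h3]
    have h4 : z + ((k - j : ℤ) : ℤ_[2]) = (z - (ph z n : ℤ)) + ((ph z n + k - j : ℤ) : ℤ_[2]) := by
      push_cast; ring
    rw [h4]
    exact (dvd_add_right h1)
  rw [h2]
  have h5 := rr_cast (ph z) n k
  constructor
  · intro h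
    rw [h] at h5
    rw [h5]
    exact Int.dvd_self_sub_emod
  · intro h
    have h6 : (j : ℤ) % 2 ^ kk n = (ph z n + k) % 2 ^ kk n := Int.modEq_iff_dvd.mpr h
    have h7 : ((j : ℤ) % 2 ^ kk n) = j := Int.emod_eq_of_lt (by positivity) (by exact_mod_cast hj)
    rw [← h6, h7] at h5
    exact_mod_cast h5

lemma rr_shift (z : ℤ_[2]) (n : ℕ) (k : ℤ) : rr (ph (z + 1)) n k = rr (ph z) n (k + 1) := by
  rw [rr_iff _ _ _ _ (rr_lt _ _ _)]
  have h := (rr_iff z n (k + 1) _ (rr_lt (ph z) n (k + 1))).mp rfl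
  convert h using 1
  push_cast
  ring

lemma measurableSet_rr (n : ℕ) (k : ℤ) (j : ℕ) : MeasurableSet {z : ℤ_[2] | rr (ph z) n k = j} := by
  by_cases hj : j < 2 ^ kk n
  · have h1 : {z : ℤ_[2] | rr (ph z) n k = j} =
        (fun z => z + ((k - j : ℤ) : ℤ_[2])) ⁻¹' {z | ‖z‖ ≤ (2 : ℝ) ^ (-(kk n) : ℤ)} := by
      ext z
      rw [mem_preimage, mem_ofPred_eq, mem_ofPred_eq, rr_iff z n k j hj]
      have := PadicInt.norm_le_pow_iff_mem_span_pow (p := 2) (z + ((k - j : ℤ) : ℤ_[2])) (kk n)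
      rw [Nat.cast_ofNat] at this
      rw [this, Ideal.mem_span_singleton]
      norm_num
    rw [h1]
    apply IsClosed.measurableSet
    apply IsClosed.preimage (by fun_prop)
    exact isClosed_le continuous_norm continuous_const
  · have h1 : {z : ℤ_[2] | rr (ph z) n k = j} = ∅ := by
      ext z
      simp only [mem_ofPred_eq, mem_empty_iff_false, iff_false]
      intro h
      exact hj (h ▸ rr_lt _ _ _)
    rw [h1]
    exact MeasurableSet.empty

lemma measurable_rr (n : ℕ) (k : ℤ) : Measurable (fun z : ℤ_[2] => rr (ph z) n k) :=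
  measurable_to_countable' (fun j => measurableSet_rr n k j)

/-! ### The equidistribution of residues -/

lemma measure_rr (n : ℕ) (j : ℕ) (hj : j < 2 ^ kk n) :
    la {z : ℤ_[2] | rr (ph z) n 0 = j} = la {z : ℤ_[2] | rr (ph z) n 0 = 0} := by
  have h1 : {z : ℤ_[2] | rr (ph z) n 0 = j} =
      (fun z => ((-j : ℤ) : ℤ_[2]) + z) ⁻¹' {z : ℤ_[2] | rr (ph z) n 0 = 0} := by
    ext z
    rw [mem_preimage, mem_ofPred_eq, mem_ofPred_eq, rr_iff _ _ _ _ hj,
      rr_iff _ _ _ 0 (by positivity)]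
    have : z + ((0 - (j : ℤ) : ℤ) : ℤ_[2]) = ((-j : ℤ) : ℤ_[2]) + z + ((0 - ((0 : ℕ) : ℤ) : ℤ) : ℤ_[2]) := by
      push_cast; ring
    rw [this]
  rw [h1, measure_preimage_add]

lemma measure_rr_eq (n : ℕ) (j : ℕ) (hj : j < 2 ^ kk n) :
    la {z : ℤ_[2] | rr (ph z) n 0 = j} = (2 ^ kk n : ENNReal)⁻¹ := by
  have h1 : la (⋃ j ∈ Finset.range (2 ^ kk n), {z : ℤ_[2] | rr (ph z) n 0 = j}) =
      ∑ j ∈ Finset.range (2 ^ kk n), la {z : ℤ_[2] | rr (ph z) n 0 = j} := by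
    apply measure_biUnion_finset
    · intro i _ i' _ hne
      rw [Function.onFun, Set.disjoint_left]
      intro z hz hz'
      rw [mem_ofPred_eq] at hz hz'
      exact hne (hz.symm.trans hz')
    · intro j _
      exact measurableSet_rr n 0 j
  have h2 : (⋃ j ∈ Finset.range (2 ^ kk n), {z : ℤ_[2] | rr (ph z) n 0 = j}) = univ := by
    ext z
    simp only [mem_iUnion, mem_ofPred_eq, mem_univ, iff_true, Finset.mem_range, exists_prop,
      exists_eq_right']
    exact rr_lt _ _ _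
  rw [h2, measure_univ, Finset.sum_congr rfl (fun j hj => measure_rr n j (Finset.mem_range.mp hj)),
    Finset.sum_const, Finset.card_range, nsmul_eq_mul] at h1
  rw [measure_rr n j hj]
  push_cast at h1
  have h3 : (2 ^ kk n : ENNReal) ≠ 0 := by positivity
  have h4 : (2 ^ kk n : ENNReal) ≠ ⊤ := by finiteness
  rw [← ENNReal.mul_right_inj h3 h4, ← h1, ENNReal.mul_inv_cancel h3 h4]


lemma measurableSet_Free : MeasurableSet Free := by
  have : Free = ⋂ n, {z | ee n ≤ rr (ph z) (n + 1) 0} := by ext z; simp [Free]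
  rw [this]
  exact MeasurableSet.iInter fun n => measurableSet_le measurable_const (measurable_rr _ _)

lemma measure_lt (n : ℕ) : la {z | rr (ph z) (n + 1) 0 < ee n} ≤ (2 ^ (n + 5) : ENNReal)⁻¹ := by
  have h1 : {z | rr (ph z) (n + 1) 0 < ee n} =
      ⋃ j ∈ Finset.range (ee n), {z : ℤ_[2] | rr (ph z) (n + 1) 0 = j} := by
    ext z
    simp only [mem_iUnion, mem_ofPred_eq, Finset.mem_range, exists_prop, exists_eq_right']
  rw [h1]
  refine (measure_biUnion_finset_le _ _).trans ?_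
  rw [Finset.sum_congr rfl (fun j hj => measure_rr_eq (n + 1) j
    ((Finset.mem_range.mp hj).trans_le (ee_le n))), Finset.sum_const, Finset.card_range,
    nsmul_eq_mul]
  have h2 := ee_density n
  have h3 : (2 ^ kk (n + 1) : ENNReal) ≠ 0 := by positivity
  have h4 : (2 ^ kk (n + 1) : ENNReal) ≠ ⊤ := by finiteness
  have h5 : (2 ^ (n + 5) : ENNReal) ≠ 0 := by positivity
  have h6 : (2 ^ (n + 5) : ENNReal) ≠ ⊤ := by finiteness
  rw [← ENNReal.mul_le_mul_iff_left h5 h6, ENNReal.inv_mul_cancel h5 h6,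
    ← ENNReal.mul_le_mul_iff_left h3 h4]
  have h7 : (ee n : ENNReal) * (2 ^ kk (n + 1))⁻¹ * 2 ^ (n + 5) * 2 ^ kk (n + 1) =
      (ee n * 2 ^ (n + 5) : ℕ) := by
    push_cast
    calc (ee n : ENNReal) * (2 ^ kk (n + 1))⁻¹ * 2 ^ (n + 5) * 2 ^ kk (n + 1) =
        ee n * 2 ^ (n + 5) * ((2 ^ kk (n + 1))⁻¹ * 2 ^ kk (n + 1)) := by ring
      _ = _ := by rw [ENNReal.inv_mul_cancel h3 h4, mul_one]
  rw [h7, one_mul]
  exact_mod_cast h2


lemma measure_Free_compl : la Freeᶜ ≤ (16 : ENNReal)⁻¹ := by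
  have h2 : Freeᶜ = ⋃ n, {z | rr (ph z) (n + 1) 0 < ee n} := by
    ext z
    simp [Free]
  rw [h2]
  refine (measure_iUnion_le _).trans ?_
  refine (ENNReal.tsum_le_tsum measure_lt).trans ?_
  have h3 : ∀ n : ℕ, (2 ^ (n + 5) : ENNReal)⁻¹ = 16⁻¹ * (2⁻¹ ^ (n + 1)) := by
    intro n
    have e : (2 : ENNReal) ^ (n + 5) = 16 * 2 ^ (n + 1) := by
      rw [show n + 5 = 4 + (n + 1) by ring, pow_add]
      norm_num
    rw [e, ENNReal.mul_inv (by left; norm_num) (by left; norm_num), ENNReal.inv_pow]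
  simp only [h3]
  rw [ENNReal.tsum_mul_left, ENNReal.tsum_geometric_add_one, ENNReal.one_sub_inv_two, inv_inv,
    ENNReal.inv_mul_cancel (by norm_num) (by norm_num), mul_one]

theorem t_DENS : S_DENS := ⟨measure_Free_compl, measurableSet_Free⟩

end Pool.Agent.N822.TZ
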