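import Pool.Agent.N822.TZ.Fac
import Pool.Agent.N565.TZ.Low

/-! The cocycle along powers of two. -/

set_option autoImplicit false

open Set Topology MeasureTheory Filter

noncomputable section

namespace Pool.Agent.N822.TZ

lemma phi_two_mul (u : ℤ_[2]) : phi (2 * u) = true := Pool.Agent.N565.TZ.phi_true (Dvd.intro _ rfl)

lemma phi_two_mul_add_one {u : ℤ_[2]} (hu : u + 1 ≠ 0) : phi (2 * u + 1) = !(phi u) := by
  have h2 : (2 : ℤ_[2]) ≠ 0 := two_ne_zero
  have hv : ((2 : ℕ) : ℤ_[2]).valuation = 1 := PadicInt.valuation_p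
  have e : (2 * u + 1 + 1 : ℤ_[2]) = ((2 : ℕ) : ℤ_[2]) * (u + 1) := by push_cast; ring
  unfold phi
  rw [e, PadicInt.valuation_mul (by exact_mod_cast h2) hu, hv, add_comm 1]
  by_cases h : Even (u + 1).valuation
  · have h' : ¬ Even ((u + 1).valuation + 1) := by
      rw [Nat.even_add_one]
      exact not_not.mpr h
    simp [h, h']
  · have h' : Even ((u + 1).valuation + 1) := by
      rw [Nat.even_add_one]
      exact h
    simp [h, h']

theorem t_PHI : S_PHI := by
  intro k
  induction k with
  | zero =>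
    intro z u r _ hr hz b
    have hr0 : r = 0 := by simpa using hr
    subst hr0
    have : z = u := by simpa using hz
    subst this
    rw [pow_zero, pow_one, T_apply]
    simp
  | succ k ih =>
    intro z u r hZ hr hz b
    have hpow : (T ^ (2 ^ (k + 1)) : Equiv.Perm Om) = T ^ (2 ^ k) * T ^ (2 ^ k) := by
      rw [← pow_add]
      congr 1
      ring
    rw [hpow, Equiv.Perm.mul_apply]
    have hu : u + 1 ≠ 0 := by
      intro h
      apply hZ (-(2 : ℤ) ^ (k + 1) + r)
      have : u = -1 := by linear_combination h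
      rw [hz, this]
      push_cast
      ring
    have hZ' : ∀ m : ℤ, z + 2 ^ k ≠ (m : ℤ_[2]) := by
      intro m hm
      apply hZ (m - 2 ^ k)
      push_cast
      linear_combination hm
    rcases lt_or_ge r (2 ^ k) with h | h
    · have e1 : z = 2 ^ k * (2 * u) + (r : ℤ_[2]) := by rw [hz, pow_succ]; ring
      have e2 : z + 2 ^ k = 2 ^ k * (2 * u + 1) + (r : ℤ_[2]) := by rw [e1]; ring
      rw [ih z (2 * u) r hZ h e1 b, ih (z + 2 ^ k) (2 * u + 1) r hZ' h e2,
        phi_two_mul, phi_two_mul_add_one hu]
      ext1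
      · simp only
        rw [pow_succ]
        ring
      · cases b <;> cases phi u <;> rfl
    · obtain ⟨s, rfl⟩ := Nat.exists_eq_add_of_le h
      have hs : s < 2 ^ k := by
        rw [pow_succ] at hr
        omega
      have e1 : z = 2 ^ k * (2 * u + 1) + (s : ℤ_[2]) := by
        rw [hz, pow_succ]
        push_cast
        ring
      have e2 : z + 2 ^ k = 2 ^ k * (2 * (u + 1)) + (s : ℤ_[2]) := by rw [e1]; ring
      rw [ih z (2 * u + 1) s hZ hs e1 b, ih (z + 2 ^ k) (2 * (u + 1)) s hZ' hs e2,
        phi_two_mul, phi_two_mul_add_one hu]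
      ext1
      · simp only
        rw [pow_succ]
        ring
      · cases b <;> cases phi u <;> rfl

end Pool.Agent.N822.TZ
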