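import Pool.Agent.N822.TZ.Symb

/-!
Definitions and statements for project TZ (helper822): a Toeplitz system with an ergodic measure
which is partially rigid and not rigid (page MP_6420b1_an).
-/

set_option autoImplicit false

open Set Topology MeasureTheory Filter

open scoped ENNReal

noncomputable section

namespace Pool.Agent.N822.TZ

open Pool.Agent.N822.TZ.Symb

instance : MeasurableSpace ℤ_[2] := borel _
instance : BorelSpace ℤ_[2] := ⟨rfl⟩

/-- Haar measure of the 2-adic integers -/
def la : Measure ℤ_[2] := Measure.addHaarMeasure ⊤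
instance : la.IsAddHaarMeasure := by unfold la; infer_instance
instance : IsProbabilityMeasure la := ⟨by
  have := Measure.addHaarMeasure_self (K₀ := (⊤ : TopologicalSpace.PositiveCompacts ℤ_[2]))
  rwa [TopologicalSpace.PositiveCompacts.coe_top] at this⟩

/-- the base of the two-point extension -/
abbrev Om : Type := ℤ_[2] × Bool

/-- the Morse cocycle: `true` iff the number of trailing binary digits `1` of `z` is even -/
def phi (z : ℤ_[2]) : Bool := decide (Even (z + 1).valuation)

/-- the Morse extension of the odometer -/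
def T : Equiv.Perm Om where
  toFun := fun ω => (ω.1 + 1, xor ω.2 (phi ω.1))
  invFun := fun ω => (ω.1 - 1, xor ω.2 (phi (ω.1 - 1)))
  left_inv := by
    rintro ⟨z, b⟩
    simp
  right_inv := by
    rintro ⟨z, b⟩
    simp

/-- the measure of the extension -/
def rho : Measure Om :=
  (2 : ℝ≥0∞)⁻¹ • (la.map (fun z => (z, false)) + la.map (fun z => (z, true)))

/-- the phase of a 2-adic integer -/
def ph (z : ℤ_[2]) (n : ℕ) : ℤ := (z.appr (kk n) : ℤ)

/-- the free content of a point of the base -/
def fr (ω : Om) (k : ℤ) : Bool := ((T ^ k) ω).2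

/-- the coded sequence of a point of the base -/
def yc (ω : Om) : ℤ → Bool := xs (ph ω.1) (fr ω)

/-- the phases for which the coordinate `0` is free -/
def Free : Set ℤ_[2] := {z | ∀ n, ee n ≤ rr (ph z) (n + 1) 0}

/-! ### Statements -/

/-- HH2: there are at least two header blocks at every level. -/
def S_HH2 : Prop := ∀ n, 2 ≤ hh n

/-- TOEP: the subshift is the orbit closure of a Toeplitz sequence (non-periodicity apart). -/
def S_TOEP : Prop := ∃ x ∈ Kp, (∀ n : ℤ, ∃ p : ℤ, 1 ≤ p ∧ ∀ k : ℤ, x (n + k * p) = x n) ∧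
  closure {y : ℤ → Bool | ∃ k : ℤ, y = fun n => x (n + k)} = Kp

/-- PHI: the cocycle along powers of two. -/
def S_PHI : Prop := ∀ (k : ℕ) (z u : ℤ_[2]) (r : ℕ), (∀ m : ℤ, z ≠ (m : ℤ_[2])) → r < 2 ^ k →
  z = 2 ^ k * u + (r : ℤ_[2]) → ∀ b : Bool, (T ^ (2 ^ k)) (z, b) = (z + 2 ^ k, xor b (phi u))

/-- LOW: the cocycle is nontrivial on a set of measure at least `1/8`, for all times. -/
def S_LOW : Prop := ∀ n : ℕ, 0 < n → (8 : ℝ≥0∞)⁻¹ ≤ la {z | ((T ^ n) (z, false)).2 = true}

/-- PRES: `T` preserves `rho`. -/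
def S_PRES : Prop := MeasurePreserving (T : Om → Om) rho rho

/-- TR: continuity of translations in measure. -/
def S_TR : Prop := ∀ E : Set ℤ_[2], MeasurableSet E →
  Tendsto (fun k : ℕ => la (E \ ((fun z => z + 2 ^ k) ⁻¹' E))) atTop (𝓝 0)

/-- ERG: `T` is ergodic. -/
def S_ERG : Prop := Ergodic (T : Om → Om) rho

/-- PR: `T` is partially rigid along the powers of two. -/
def S_PR : Prop := ∀ E : Set Om, MeasurableSet E →
  (4 : ℝ≥0∞)⁻¹ * rho E ≤
    liminf (fun k : ℕ => rho (((T ^ (2 ^ k) : Equiv.Perm Om) : Om → Om) ⁻¹' E ∩ E)) atTop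

/-- DENS: most phases are free. -/
def S_DENS : Prop := la Freeᶜ ≤ (16 : ℝ≥0∞)⁻¹ ∧ MeasurableSet Free

/-- MEAS: the coded sequence depends measurably on the point of the base. -/
def S_MEAS : Prop := Measurable yc

end Pool.Agent.N822.TZ
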