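import Mathlib

/-! A minimal subshift with prescribed headers and free content. -/

open Set Topology

noncomputable section

namespace Pool.Agent.N822.TZ.Symb

/-- A level: the length is `2 ^ k`, and `L` is the set of legal words of that length. -/
structure Lev where
  /-- the length of the words is `2 ^ k` -/
  k : ℕ
  /-- legal words (only the letters of index below `2 ^ k` matter) -/
  L : (ℕ → Bool) → Prop
  ne : ∃ w, L w
  loc : ∀ w w' : ℕ → Bool, (∀ i < 2 ^ k, w i = w' i) → L w → L w'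

/-- extension of a finite word -/
def ext {n : ℕ} (f : Fin n → Bool) (i : ℕ) : Bool := if h : i < n then f ⟨i, h⟩ else false

lemma ext_lt {n : ℕ} (f : Fin n → Bool) {i : ℕ} (h : i < n) : ext f i = f ⟨i, h⟩ := dif_pos h

lemma exists_header (l : Lev) : ∃ (h : ℕ) (H : ℕ → Bool), 0 < h ∧
    (∀ q < h, l.L (fun i => H (q * 2 ^ l.k + i))) ∧
    (∀ w, l.L w → ∃ q < h, ∀ i < 2 ^ l.k, H (q * 2 ^ l.k + i) = w i) := by
  classical
  have h2 : 0 < 2 ^ l.k := by positivity
  set s : List (Fin (2 ^ l.k) → Bool) := (Finset.univ.filter fun f => l.L (ext f)).toList with hs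
  have hmem : ∀ f, f ∈ s ↔ l.L (ext f) := by
    intro f
    rw [hs, Finset.mem_toList, Finset.mem_filter]
    simp
  let H : ℕ → Bool := fun i => if h : i / 2 ^ l.k < s.length then ext (s.get ⟨_, h⟩) (i % 2 ^ l.k)
    else false
  have hH : ∀ q (hq : q < s.length), ∀ i < 2 ^ l.k, H (q * 2 ^ l.k + i) = ext (s.get ⟨q, hq⟩) i := by
    intro q hq i hi
    have e1 : (q * 2 ^ l.k + i) / 2 ^ l.k = q := by
      rw [mul_comm, Nat.mul_add_div h2, Nat.div_eq_of_lt hi, add_zero]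
    have e2 : (q * 2 ^ l.k + i) % 2 ^ l.k = i := by
      rw [mul_comm, Nat.mul_add_mod, Nat.mod_eq_of_lt hi]
    simp only [H]
    rw [dif_pos (by rw [e1]; exact hq)]
    simp only [e1, e2]
  refine ⟨s.length, H, ?_, ?_, ?_⟩
  · obtain ⟨w, hw⟩ := l.ne
    have : (fun i : Fin (2 ^ l.k) => w i) ∈ s := by
      rw [hmem]
      apply l.loc w _ _ hw
      intro i hi
      rw [ext_lt _ hi]
    exact List.length_pos_of_mem this
  · intro q hq
    have h1 : s.get ⟨q, hq⟩ ∈ s := List.get_mem _ _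
    rw [hmem] at h1
    apply l.loc _ _ _ h1
    intro i hi
    exact (hH q hq i hi).symm
  · intro w hw
    have h1 : (fun i : Fin (2 ^ l.k) => w i) ∈ s := by
      rw [hmem]
      apply l.loc w _ _ hw
      intro i hi
      rw [ext_lt _ hi]
    obtain ⟨⟨q, hq⟩, hq'⟩ := List.get_of_mem h1
    refine ⟨q, hq, fun i hi => ?_⟩
    rw [hH q hq i hi, hq', ext_lt _ hi]

/-- number of blocks of the header -/
def hn (l : Lev) : ℕ := Classical.choose (exists_header l)
/-- the header -/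
def Hd (l : Lev) : ℕ → Bool := Classical.choose (Classical.choose_spec (exists_header l))

lemma hn_pos (l : Lev) : 0 < hn l :=
  (Classical.choose_spec (Classical.choose_spec (exists_header l))).1
lemma Hd_legal (l : Lev) : ∀ q < hn l, l.L (fun i => Hd l (q * 2 ^ l.k + i)) :=
  (Classical.choose_spec (Classical.choose_spec (exists_header l))).2.1
lemma Hd_all (l : Lev) : ∀ w, l.L w → ∃ q < hn l, ∀ i < 2 ^ l.k, Hd l (q * 2 ^ l.k + i) = w i :=
  (Classical.choose_spec (Classical.choose_spec (exists_header l))).2.2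

lemma hn_add_two_le (n : ℕ) (l : Lev) : hn l + 2 ≤ 2 ^ (hn l + n + 5) := by
  have h1 := hn_pos l
  have h2 : hn l < 2 ^ hn l := Nat.lt_two_pow_self
  have h3 : 2 ^ (hn l + n + 5) = 2 ^ hn l * (2 ^ n * 32) := by rw [pow_add, pow_add]; ring
  have h4 : 1 ≤ 2 ^ n := Nat.one_le_two_pow
  rw [h3]
  nlinarith

lemma hn_mul_le (n : ℕ) (l : Lev) : hn l * 2 ^ (n + 5) ≤ 2 ^ (hn l + n + 5) := by
  have h2 : hn l < 2 ^ hn l := Nat.lt_two_pow_self
  rw [add_assoc, pow_add 2 (hn l)]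
  exact Nat.mul_le_mul_right _ h2.le

/-- legality at the next level -/
def nextL (n : ℕ) (l : Lev) (w : ℕ → Bool) : Prop :=
  (∀ i < hn l * 2 ^ l.k, w i = Hd l i) ∧
    ∀ q < 2 ^ (hn l + n + 5), l.L (fun i => w (q * 2 ^ l.k + i))

lemma div_of_lt {a b q i : ℕ} (hi : i < b) (h : a = q * b + i) : a / b = q ∧ a % b = i := by
  subst h
  have hb : 0 < b := by omega
  constructor
  · rw [mul_comm, Nat.mul_add_div hb, Nat.div_eq_of_lt hi, add_zero]
  · rw [mul_comm, Nat.mul_add_mod, Nat.mod_eq_of_lt hi]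

/-- a legal word of the next level containing two given consecutive legal words -/
lemma exists_pair (n : ℕ) (l : Lev) {u v : ℕ → Bool} (hu : l.L u) (hv : l.L v) :
    ∃ w, nextL n l w ∧ (∀ i < 2 ^ l.k, w (hn l * 2 ^ l.k + i) = u i) ∧
      (∀ i < 2 ^ l.k, w ((hn l + 1) * 2 ^ l.k + i) = v i) := by
  have h2 : 0 < 2 ^ l.k := by positivity
  let w : ℕ → Bool := fun i => if i < hn l * 2 ^ l.k then Hd l i else
    if i / 2 ^ l.k = hn l then u (i % 2 ^ l.k) else v (i % 2 ^ l.k)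
  have hge : ∀ q i : ℕ, hn l ≤ q → ¬ (q * 2 ^ l.k + i < hn l * 2 ^ l.k) := by
    intro q i hq
    have := Nat.mul_le_mul_right (2 ^ l.k) hq
    omega
  have hlt : ∀ q i : ℕ, q < hn l → i < 2 ^ l.k → q * 2 ^ l.k + i < hn l * 2 ^ l.k := by
    intro q i hq hi
    have h1 : (q + 1) * 2 ^ l.k ≤ hn l * 2 ^ l.k := Nat.mul_le_mul_right (2 ^ l.k) hq
    have h3 : (q + 1) * 2 ^ l.k = q * 2 ^ l.k + 2 ^ l.k := by ring
    omega
  have hw1 : ∀ q i : ℕ, q < hn l → i < 2 ^ l.k → w (q * 2 ^ l.k + i) = Hd l (q * 2 ^ l.k + i) := by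
    intro q i hq hi
    simp only [w]
    rw [if_pos (hlt q i hq hi)]
  have hw2 : ∀ i : ℕ, i < 2 ^ l.k → w (hn l * 2 ^ l.k + i) = u i := by
    intro i hi
    simp only [w]
    rw [if_neg (hge _ i le_rfl), (div_of_lt hi rfl).1, (div_of_lt hi rfl).2, if_pos rfl]
  have hw3 : ∀ q i : ℕ, hn l < q → i < 2 ^ l.k → w (q * 2 ^ l.k + i) = v i := by
    intro q i hq hi
    simp only [w]
    rw [if_neg (hge _ i hq.le), (div_of_lt hi rfl).1, (div_of_lt hi rfl).2, if_neg hq.ne']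
  refine ⟨w, ⟨fun i hi => if_pos hi, fun q _ => ?_⟩, hw2, fun i hi => hw3 _ i (by omega) hi⟩
  rcases lt_trichotomy q (hn l) with h | h | h
  · exact l.loc _ _ (fun i hi => (hw1 q i h hi).symm) (Hd_legal l q h)
  · subst h
    exact l.loc _ _ (fun i hi => (hw2 i hi).symm) hu
  · exact l.loc _ _ (fun i hi => (hw3 q i h hi).symm) hv

/-- the next level -/
def next (n : ℕ) (l : Lev) : Lev where
  k := l.k + (hn l + n + 5)
  L := nextL n l
  ne := by
    obtain ⟨u, hu⟩ := l.ne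
    obtain ⟨w, hw, -⟩ := exists_pair n l hu hu
    exact ⟨w, hw⟩
  loc := by
    rintro w w' hww ⟨h1, h2⟩
    have hpow : 2 ^ (l.k + (hn l + n + 5)) = 2 ^ (hn l + n + 5) * 2 ^ l.k := by rw [pow_add]; ring
    rw [hpow] at hww
    constructor
    · intro i hi
      rw [← h1 i hi]
      symm
      apply hww
      have h3 := hn_add_two_le n l
      have h4 : hn l * 2 ^ l.k ≤ 2 ^ (hn l + n + 5) * 2 ^ l.k := Nat.mul_le_mul_right _ (by omega)
      omega
    · intro q hq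
      apply l.loc _ _ _ (h2 q hq)
      intro i hi
      apply hww
      have h4 : (q + 1) * 2 ^ l.k ≤ 2 ^ (hn l + n + 5) * 2 ^ l.k := Nat.mul_le_mul_right _ hq
      have h5 : (q + 1) * 2 ^ l.k = q * 2 ^ l.k + 2 ^ l.k := by ring
      omega

/-- level zero -/
def lev0 : Lev where
  k := 0
  L := fun _ => True
  ne := ⟨fun _ => false, trivial⟩
  loc := fun _ _ _ _ => trivial

/-- the levels -/
def lev : ℕ → Lev
  | 0 => lev0
  | n + 1 => next n (lev n)

/-- exponent of the length -/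
def kk (n : ℕ) : ℕ := (lev n).k
/-- legality -/
def LL (n : ℕ) (w : ℕ → Bool) : Prop := (lev n).L w
/-- header -/
def HH (n : ℕ) : ℕ → Bool := Hd (lev n)
/-- number of blocks of the header -/
def hh (n : ℕ) : ℕ := hn (lev n)
/-- length of the header -/
def ee (n : ℕ) : ℕ := hh n * 2 ^ kk n

lemma kk_succ (n : ℕ) : kk (n + 1) = kk n + (hh n + n + 5) := rfl
lemma kk_zero : kk 0 = 0 := rfl

lemma kk_lt (n : ℕ) : kk n < kk (n + 1) := by rw [kk_succ]; omega

lemma kk_mono : Monotone kk := monotone_nat_of_le_succ (fun n => (kk_lt n).le)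

lemma le_kk (n : ℕ) : n ≤ kk n := by
  induction n with
  | zero => exact Nat.zero_le _
  | succ n ih => have := kk_lt n; omega

lemma LL_succ (n : ℕ) (w : ℕ → Bool) : LL (n + 1) w ↔ (∀ i < ee n, w i = HH n i) ∧
    ∀ q < 2 ^ (hh n + n + 5), LL n (fun i => w (q * 2 ^ kk n + i)) := Iff.rfl

lemma LL_zero (w : ℕ → Bool) : LL 0 w := trivial

lemma LL_loc {n : ℕ} {w w' : ℕ → Bool} (h : ∀ i < 2 ^ kk n, w i = w' i) (hw : LL n w) : LL n w' :=
  (lev n).loc w w' h hw

lemma ee_le (n : ℕ) : ee n ≤ 2 ^ kk (n + 1) := by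
  have h1 := hn_add_two_le n (lev n)
  rw [kk_succ, pow_add, ee, mul_comm]
  apply Nat.mul_le_mul_left
  change hn (lev n) ≤ _
  have : hh n = hn (lev n) := rfl
  rw [this]
  omega

lemma ee_density (n : ℕ) : ee n * 2 ^ (n + 5) ≤ 2 ^ kk (n + 1) := by
  have h1 := hn_mul_le n (lev n)
  have h2 : hh n = hn (lev n) := rfl
  have h3 : kk (n + 1) = kk n + (hn (lev n) + n + 5) := rfl
  rw [h3, ee, h2, pow_add 2 (kk n)]
  calc hn (lev n) * 2 ^ kk n * 2 ^ (n + 5) = 2 ^ kk n * (hn (lev n) * 2 ^ (n + 5)) := by ring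
    _ ≤ _ := Nat.mul_le_mul_left _ h1

lemma sub_block (n d : ℕ) : ∀ (w : ℕ → Bool) (j : ℕ), LL (n + d) w →
    (j + 1) * 2 ^ kk n ≤ 2 ^ kk (n + d) → LL n (fun i => w (j * 2 ^ kk n + i)) := by
  induction d with
  | zero =>
    intro w j hw hj
    have h2 : 0 < 2 ^ kk n := by positivity
    have : j = 0 := by
      rw [add_zero] at hj
      by_contra h
      have h3 : 2 * 2 ^ kk n ≤ (j + 1) * 2 ^ kk n := Nat.mul_le_mul_right _ (by omega)
      omega
    subst this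
    simpa using hw
  | succ d ih =>
    intro w j hw hj
    rw [← add_assoc, LL_succ] at hw
    have hk : kk n ≤ kk (n + d) := kk_mono (by omega)
    obtain ⟨e, he⟩ := Nat.exists_eq_add_of_le hk
    have hpow : 2 ^ kk (n + d) = 2 ^ e * 2 ^ kk n := by rw [he, pow_add]; ring
    have hR : 0 < 2 ^ e := by positivity
    have h2 : 0 < 2 ^ kk n := by positivity
    have hq : j / 2 ^ e < 2 ^ (hh (n + d) + (n + d) + 5) := by
      rw [Nat.div_lt_iff_lt_mul hR]
      rw [← add_assoc, kk_succ, pow_add, hpow] at hj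
      have h3 : (j + 1) * 2 ^ kk n ≤ (2 ^ (hh (n + d) + (n + d) + 5) * 2 ^ e) * 2 ^ kk n := by
        calc _ ≤ _ := hj
          _ = _ := by ring
      have := Nat.le_of_mul_le_mul_right h3 h2
      omega
    have h4 := hw.2 _ hq
    have h5 := ih _ (j % 2 ^ e) h4 (by
      rw [hpow]
      exact Nat.mul_le_mul_right _ (Nat.mod_lt _ hR))
    convert h5 using 3
    rw [hpow]
    have h6 := Nat.div_add_mod j (2 ^ e)
    rename_i i
    calc j * 2 ^ kk n + i = (2 ^ e * (j / 2 ^ e) + j % 2 ^ e) * 2 ^ kk n + i := by rw [h6]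
      _ = _ := by ring

lemma sub_block' {n m : ℕ} (hnm : n ≤ m) {w : ℕ → Bool} {j : ℕ} (hw : LL m w)
    (hj : (j + 1) * 2 ^ kk n ≤ 2 ^ kk m) : LL n (fun i => w (j * 2 ^ kk n + i)) := by
  obtain ⟨d, rfl⟩ := Nat.exists_eq_add_of_le hnm
  exact sub_block n d w j hw hj

/-! ### The subshift -/

/-- the subshift: all finite windows occur in legal words -/
def Kp : Set (ℤ → Bool) := {y | ∀ (a : ℤ) (m : ℕ), ∃ n w p, LL n w ∧ p + m ≤ 2 ^ kk n ∧
  ∀ i < m, y (a + i) = w (p + i)}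

/-- the shift -/
def sh (y : ℤ → Bool) : ℤ → Bool := fun n => y (n + 1)

lemma sh_mem_iff (y : ℤ → Bool) : sh y ∈ Kp ↔ y ∈ Kp := by
  constructor
  · intro h a m
    obtain ⟨n, w, p, h1, h2, h3⟩ := h (a - 1) m
    refine ⟨n, w, p, h1, h2, fun i hi => ?_⟩
    rw [← h3 i hi, sh]
    congr 1
    ring
  · intro h a m
    obtain ⟨n, w, p, h1, h2, h3⟩ := h (a + 1) m
    refine ⟨n, w, p, h1, h2, fun i hi => ?_⟩
    rw [← h3 i hi, sh]
    congr 1
    ring

lemma isClosed_Kp : IsClosed Kp := by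
  have h : Kp = ⋂ (a : ℤ) (m : ℕ), {y | ∃ n w p, LL n w ∧ p + m ≤ 2 ^ kk n ∧
      ∀ i < m, y (a + i) = w (p + i)} := by
    ext y; simp only [Kp, mem_ofPred_eq, mem_iInter]
  rw [h]
  apply isClosed_iInter; intro a
  apply isClosed_iInter; intro m
  -- the set is the preimage of a set of finite words
  let f : (ℤ → Bool) → (Fin m → Bool) := fun y i => y (a + (i : ℕ))
  have hf : Continuous f := by fun_prop
  have h2 : {y : ℤ → Bool | ∃ n w p, LL n w ∧ p + m ≤ 2 ^ kk n ∧ ∀ i < m, y (a + i) = w (p + i)} =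
      f ⁻¹' {u | ∃ n w p, LL n w ∧ p + m ≤ 2 ^ kk n ∧ ∀ i : Fin m, u i = w (p + i)} := by
    ext y
    simp only [mem_ofPred_eq, mem_preimage, f]
    constructor
    · rintro ⟨n, w, p, h1, h2, h3⟩
      exact ⟨n, w, p, h1, h2, fun i => h3 i i.2⟩
    · rintro ⟨n, w, p, h1, h2, h3⟩
      exact ⟨n, w, p, h1, h2, fun i hi => h3 ⟨i, hi⟩⟩
  rw [h2]
  exact (isClosed_discrete _).preimage hf

lemma isCompact_Kp : IsCompact Kp := isClosed_Kp.isCompact

/-- minimality of the subshift -/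
theorem Kp_min {x y : ℤ → Bool} (hx : x ∈ Kp) (hy : y ∈ Kp) (a : ℤ) (m : ℕ) :
    ∃ k : ℤ, ∀ i < m, x (k + i) = y (a + i) := by
  obtain ⟨n, w, p, h1, h2, h3⟩ := hy a m
  obtain ⟨n', w', p', h1', h2', h3'⟩ := hx 0 (2 * 2 ^ kk (n + 1))
  have hB : 0 < 2 ^ kk (n + 1) := by positivity
  have hn' : n + 1 ≤ n' := by
    by_contra hc
    have h4 : kk n' ≤ kk (n + 1) := kk_mono (by omega)
    have h5 := Nat.pow_le_pow_right (n := 2) (by norm_num) h4
    omega
  set B := 2 ^ kk (n + 1) with hBdef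
  set j := (p' + B - 1) / B with hj
  have hj1 : p' ≤ j * B := by
    have h6 := Nat.div_add_mod (p' + B - 1) B
    have h7 := Nat.mod_lt (p' + B - 1) hB
    rw [← hj] at h6
    have h8 : B * j = j * B := mul_comm _ _
    omega
  have hj2 : j * B < p' + B := by
    have h6 := Nat.div_mul_le_self (p' + B - 1) B
    rw [← hj] at h6
    omega
  have h4 : (j + 1) * B = j * B + B := by ring
  have h5 : LL (n + 1) (fun i => w' (j * 2 ^ kk (n + 1) + i)) := by
    apply sub_block' hn' h1'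
    rw [← hBdef, h4]
    omega
  rw [LL_succ] at h5
  obtain ⟨q, hq, hq'⟩ := Hd_all (lev n) w h1
  change q < hh n at hq
  change ∀ i < 2 ^ kk n, HH n (q * 2 ^ kk n + i) = w i at hq'
  have hqe : (q + 1) * 2 ^ kk n ≤ ee n := Nat.mul_le_mul_right _ hq
  have hqe' : (q + 1) * 2 ^ kk n = q * 2 ^ kk n + 2 ^ kk n := by ring
  have heB := ee_le n
  rw [← hBdef] at heB
  refine ⟨((j * B - p' + q * 2 ^ kk n + p : ℕ) : ℤ), fun i hi => ?_⟩
  rw [h3 i hi]
  have h6 : w (p + i) = w' (j * B + (q * 2 ^ kk n + (p + i))) := by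
    have h7 := h5.1 (q * 2 ^ kk n + (p + i)) (by omega)
    rw [← hBdef] at h7
    rw [h7, hq' _ (by omega)]
  rw [h6]
  have h8 := h3' (j * B - p' + q * 2 ^ kk n + p + i) (by omega)
  rw [zero_add] at h8
  have h9 : ((j * B - p' + q * 2 ^ kk n + p : ℕ) : ℤ) + (i : ℤ) =
    ((j * B - p' + q * 2 ^ kk n + p + i : ℕ) : ℤ) := by push_cast; ring
  rw [h9, h8]
  congr 1
  omega

/-! ### Sequences with a given phase and free content -/

/-- position in the block of level `n` of the coordinate `k`, for the phase `c` -/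
def rr (c : ℕ → ℤ) (n : ℕ) (k : ℤ) : ℕ := ((c n + k) % 2 ^ kk n).toNat

/-- compatible phases -/
def Comp (c : ℕ → ℤ) : Prop := ∀ n, (2 ^ kk n : ℤ) ∣ c (n + 1) - c n

lemma rr_cast (c : ℕ → ℤ) (n : ℕ) (k : ℤ) : (rr c n k : ℤ) = (c n + k) % 2 ^ kk n :=
  Int.toNat_of_nonneg (Int.emod_nonneg _ (by positivity))

lemma rr_lt (c : ℕ → ℤ) (n : ℕ) (k : ℤ) : rr c n k < 2 ^ kk n := by
  have h := Int.emod_lt_of_pos (c n + k) (by positivity : (0 : ℤ) < 2 ^ kk n)
  rw [← rr_cast] at h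
  exact_mod_cast h

lemma Comp.dvd {c : ℕ → ℤ} (hc : Comp c) {n m : ℕ} (h : n ≤ m) : (2 ^ kk n : ℤ) ∣ c m - c n := by
  induction m, h using Nat.le_induction with
  | base => simp
  | succ m hnm ih =>
    have h1 : (2 ^ kk n : ℤ) ∣ 2 ^ kk m := pow_dvd_pow _ (kk_mono hnm)
    have h2 := dvd_add (h1.trans (hc m)) ih
    rwa [sub_add_sub_cancel] at h2

lemma rr_mod {c : ℕ → ℤ} (hc : Comp c) {n m : ℕ} (h : n ≤ m) (k : ℤ) :
    rr c n k = rr c m k % 2 ^ kk n := by
  have h1 : (rr c n k : ℤ) = ((rr c m k % 2 ^ kk n : ℕ) : ℤ) := by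
    push_cast
    rw [rr_cast, rr_cast]
    have h2 : (2 ^ kk n : ℤ) ∣ 2 ^ kk m := pow_dvd_pow _ (kk_mono h)
    rw [Int.emod_emod_of_dvd _ h2]
    have h3 := hc.dvd h
    have h4 : c m + k = (c n + k) + (c m - c n) := by ring
    obtain ⟨t, ht⟩ := h3
    rw [h4, ht, Int.add_mul_emod_self_left]
  exact_mod_cast h1

lemma rr_add {c : ℕ → ℤ} {n : ℕ} {k : ℤ} {i : ℕ} (h : rr c n k + i < 2 ^ kk n) :
    rr c n (k + i) = rr c n k + i := by
  have h1 : (rr c n (k + i) : ℤ) = ((rr c n k + i : ℕ) : ℤ) := by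
    push_cast
    rw [rr_cast]
    have h2 := rr_cast c n k
    have h3 : c n + (k + i) = (rr c n k + i) + 2 ^ kk n * ((c n + k) / 2 ^ kk n) := by
      rw [h2]
      have := Int.emod_add_mul_ediv (c n + k) (2 ^ kk n)
      linarith
    rw [h3, Int.add_mul_emod_self_left]
    apply Int.emod_eq_of_lt
    · positivity
    · exact_mod_cast h
  exact_mod_cast h1

lemma rr_sub (c : ℕ → ℤ) (n : ℕ) (k : ℤ) : rr c n (k - rr c n k) = 0 := by
  have h1 : (rr c n (k - rr c n k) : ℤ) = 0 := by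
    rw [rr_cast, rr_cast]
    have h3 : c n + (k - (c n + k) % 2 ^ kk n) = 2 ^ kk n * ((c n + k) / 2 ^ kk n) := by
      have := Int.emod_add_mul_ediv (c n + k) (2 ^ kk n)
      linarith
    rw [h3]
    exact Int.mul_emod_right _ _
  exact_mod_cast h1

lemma rr_per (c : ℕ → ℤ) (n : ℕ) (k : ℤ) : rr c n (k + 2 ^ kk n) = rr c n k := by
  rw [rr, rr]
  congr 1
  rw [← add_assoc, Int.add_emod_right]

open Classical in
/-- the sequence with phase `c` and free content `f` -/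
def xs (c : ℕ → ℤ) (f : ℤ → Bool) (k : ℤ) : Bool :=
  if h : ∃ n, rr c (n + 1) k < ee n then HH (Nat.find h) (rr c (Nat.find h + 1) k) else f k

lemma xs_free {c : ℕ → ℤ} (f : ℤ → Bool) {k : ℤ} (h : ∀ n, ee n ≤ rr c (n + 1) k) :
    xs c f k = f k := by
  rw [xs, dif_neg]
  rintro ⟨n, hn⟩
  exact absurd (h n) (not_le.mpr hn)

lemma header_consistent {m n : ℕ} (hmn : m < n) {r : ℕ} (hr : r < ee n)
    (hr' : r % 2 ^ kk (m + 1) < ee m) : HH n r = HH m (r % 2 ^ kk (m + 1)) := by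
  have hpos : 0 < 2 ^ kk n := by positivity
  have hpos' : 0 < 2 ^ kk (m + 1) := by positivity
  have hq : r / 2 ^ kk n < hh n := by
    rw [Nat.div_lt_iff_lt_mul hpos]; exact hr
  have h1 : LL n (fun i => HH n (r / 2 ^ kk n * 2 ^ kk n + i)) := Hd_legal (lev n) _ hq
  have hk : kk (m + 1) ≤ kk n := kk_mono hmn
  obtain ⟨e, he⟩ := Nat.exists_eq_add_of_le hk
  have hpow : 2 ^ kk n = 2 ^ e * 2 ^ kk (m + 1) := by rw [he, pow_add]; ring
  set s := r % 2 ^ kk n with hs
  have hs1 : s < 2 ^ kk n := Nat.mod_lt _ hpos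
  have hj : (s / 2 ^ kk (m + 1) + 1) * 2 ^ kk (m + 1) ≤ 2 ^ kk n := by
    have : s / 2 ^ kk (m + 1) < 2 ^ e := by
      rw [Nat.div_lt_iff_lt_mul hpos', ← hpow]; exact hs1
    rw [hpow]
    exact Nat.mul_le_mul_right _ this
  have hmn' : m + 1 ≤ n := hmn
  have h2 := sub_block' hmn' h1 hj
  rw [LL_succ] at h2
  have hdvd : 2 ^ kk (m + 1) ∣ 2 ^ kk n := pow_dvd_pow _ hk
  have hsm : s % 2 ^ kk (m + 1) = r % 2 ^ kk (m + 1) := Nat.mod_mod_of_dvd _ hdvd
  have h3 := h2.1 (r % 2 ^ kk (m + 1)) hr'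
  rw [← h3]
  congr 1
  have e1 := Nat.div_add_mod r (2 ^ kk n)
  have e2 := Nat.div_add_mod s (2 ^ kk (m + 1))
  rw [hsm] at e2
  rw [← hs] at e1
  have e3 : 2 ^ kk n * (r / 2 ^ kk n) = r / 2 ^ kk n * 2 ^ kk n := mul_comm _ _
  have e4 : 2 ^ kk (m + 1) * (s / 2 ^ kk (m + 1)) = s / 2 ^ kk (m + 1) * 2 ^ kk (m + 1) :=
    mul_comm _ _
  omega

lemma xs_header {c : ℕ → ℤ} (hc : Comp c) (f : ℤ → Bool) {k : ℤ} {n : ℕ}
    (h : rr c (n + 1) k < ee n) : xs c f k = HH n (rr c (n + 1) k) := by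
  classical
  have hex : ∃ n, rr c (n + 1) k < ee n := ⟨n, h⟩
  have h0 : xs c f k = HH (Nat.find hex) (rr c (Nat.find hex + 1) k) := by
    rw [xs, dif_pos hex]
  rw [h0]
  have hle : Nat.find hex ≤ n := Nat.find_min' hex h
  rcases lt_or_eq_of_le hle with hlt | heq
  · have h1 := Nat.find_spec hex
    have h2 := rr_mod hc (n := Nat.find hex + 1) (m := n + 1) (by omega) k
    rw [h2] at h1 ⊢
    exact (header_consistent hlt h h1).symm
  · rw [heq]

lemma aligned_legal {c : ℕ → ℤ} (hc : Comp c) (f : ℤ → Bool) (n : ℕ) :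
    ∀ a : ℤ, rr c n a = 0 → LL n (fun i => xs c f (a + i)) := by
  induction n with
  | zero => intro a _; exact LL_zero _
  | succ n ih =>
    intro a ha
    have hadd : ∀ i : ℕ, i < 2 ^ kk (n + 1) → rr c (n + 1) (a + i) = i := by
      intro i hi
      rw [rr_add (by rw [ha, zero_add]; exact hi), ha, zero_add]
    rw [LL_succ]
    constructor
    · intro i hi
      have h1 := hadd i (hi.trans_le (ee_le n))
      rw [xs_header hc f (n := n) (by rw [h1]; exact hi), h1]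
    · intro q hq
      have h2 : q * 2 ^ kk n < 2 ^ kk (n + 1) := by
        rw [kk_succ, pow_add, mul_comm]
        exact Nat.mul_lt_mul_of_pos_left hq (by positivity)
      have h1 := hadd _ h2
      have h3 : rr c n (a + (q * 2 ^ kk n : ℕ)) = 0 := by
        rw [rr_mod hc (Nat.le_succ n), h1, Nat.mul_mod_left]
      have h4 := ih _ h3
      convert h4 using 3
      push_cast
      ring

theorem xs_mem {c : ℕ → ℤ} (hc : Comp c) (f : ℤ → Bool) : xs c f ∈ Kp := by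
  intro a m
  have hm : m ≤ 2 ^ kk m := by
    have h1 : m < 2 ^ m := Nat.lt_two_pow_self
    have h2 := Nat.pow_le_pow_right (n := 2) (by norm_num) (le_kk m)
    omega
  set r := rr c m a with hr
  have hrlt : r < 2 ^ kk m := rr_lt c m a
  have h1 := aligned_legal hc f m _ (rr_sub c m a)
  have h2 := aligned_legal hc f m (a - rr c m a + 2 ^ kk m) (by rw [rr_per]; exact rr_sub c m a)
  obtain ⟨w, hw, hw1, hw2⟩ := exists_pair m (lev m) h1 h2
  change ∀ i < 2 ^ kk m, w (hh m * 2 ^ kk m + i) = _ at hw1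
  change ∀ i < 2 ^ kk m, w ((hh m + 1) * 2 ^ kk m + i) = _ at hw2
  refine ⟨m + 1, w, ee m + r, hw, ?_, ?_⟩
  · have h3 := hn_add_two_le m (lev m)
    change hh m + 2 ≤ 2 ^ (hh m + m + 5) at h3
    have h4 : (hh m + 2) * 2 ^ kk m ≤ 2 ^ (hh m + m + 5) * 2 ^ kk m := Nat.mul_le_mul_right _ h3
    rw [kk_succ, pow_add, mul_comm (2 ^ kk m)]
    have h5 : (hh m + 2) * 2 ^ kk m = ee m + 2 * 2 ^ kk m := by rw [ee]; ring
    omega
  · intro i hi
    rcases lt_or_ge (r + i) (2 ^ kk m) with h | h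
    · have h3 := hw1 (r + i) h
      rw [ee, add_assoc, h3]
      congr 1
      push_cast
      rw [← hr]
      ring
    · have h3 := hw2 (r + i - 2 ^ kk m) (by omega)
      have h4 : ee m + r + i = (hh m + 1) * 2 ^ kk m + (r + i - 2 ^ kk m) := by
        rw [ee, add_mul]; omega
      rw [h4, h3]
      congr 1
      rw [Nat.cast_sub h]
      push_cast
      rw [← hr]
      ring

end Pool.Agent.N822.TZ.Symb
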